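import Pool.Agent.Work.MP_4cb49c_pr.Main

/-!
# Slow mixing of the planar Ising Glauber dynamics from the all-plus configuration
-/

namespace Pool.Agent.Results.MP_4cb49c_pr.AllPlusSlow

open Pool.Agent.Work.MP_4cb49c_pr

/-- In the plane, for every `β ≥ 10` (all of these exceed the critical inverse temperature), the
dynamics in the box of side `L` with plus boundary condition, started from the all-plus
configuration, is not mixed at any time up to `n (log n) ^ a` with `a < 2`, `n = L ^ 2`, once `L`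
is large; in particular it is not mixed at any time up to `C n log n`. -/
theorem result (β : ℝ) (hβ : 10 ≤ β) :
    betaC < β ∧
    (∀ C : ℝ, ∃ L₀ : ℕ, ∀ L : ℕ, L₀ ≤ L → ∀ t : ℕ,
      (t : ℝ) ≤ C * ((L : ℝ) ^ 2 * Real.log ((L : ℝ) ^ 2)) →
        1 / 4 < tv (law β (box L) (allPlus (box L)) t) (gibbs β (box L))) ∧
    (∀ a : ℝ, a < 2 → ∀ δ : ℝ, 0 < δ → ∃ L₀ : ℕ, ∀ L : ℕ, L₀ ≤ L → ∀ t : ℕ,
      (t : ℝ) ≤ (L : ℝ) ^ 2 * Real.log ((L : ℝ) ^ 2) ^ a →
        1 - δ < tv (law β (box L) (allPlus (box L)) t) (gibbs β (box L))) := by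
  have hmain : ∀ a : ℝ, a < 2 → ∀ δ : ℝ, 0 < δ → ∃ L₀ : ℕ, ∀ L : ℕ, L₀ ≤ L → ∀ t : ℕ,
      (t : ℝ) ≤ (L : ℝ) ^ 2 * Real.log ((L : ℝ) ^ 2) ^ a →
        1 - δ < tv (law β (box L) (allPlus (box L)) t) (gibbs β (box L)) :=
    fun a ha δ hδ => lower_bound hβ ha hδ
  refine ⟨lt_of_le_of_lt betaC_le (by linarith), fun C => ?_, hmain⟩
  obtain ⟨L₀, h⟩ := hmain (3 / 2) (by norm_num) (3 / 4) (by norm_num)
  refine ⟨max (max L₀ 1) ⌈Real.exp (C ^ 2)⌉₊, fun L hL t ht => ?_⟩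
  have h1 : L₀ ≤ L := ((le_max_left _ _).trans (le_max_left _ _)).trans hL
  have h2 : 1 ≤ L := ((le_max_right _ _).trans (le_max_left _ _)).trans hL
  have h3 : Real.exp (C ^ 2) ≤ L := by
    have : (⌈Real.exp (C ^ 2)⌉₊ : ℝ) ≤ L := by exact_mod_cast (le_max_right _ _).trans hL
    exact (Nat.le_ceil _).trans this
  have hL1 : (1 : ℝ) ≤ L := by exact_mod_cast h2
  have hn : (L : ℝ) ≤ (L : ℝ) ^ 2 := by
    rw [sq]; exact le_mul_of_one_le_left (by linarith) hL1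
  have hlog : C ^ 2 ≤ Real.log ((L : ℝ) ^ 2) := by
    rw [Real.le_log_iff_exp_le (by positivity)]
    exact h3.trans hn
  have hlog0 : 0 ≤ Real.log ((L : ℝ) ^ 2) := le_trans (sq_nonneg C) hlog
  have key : C * Real.log ((L : ℝ) ^ 2) ≤ Real.log ((L : ℝ) ^ 2) ^ (3 / 2 : ℝ) := by
    rcases hlog0.eq_or_lt with h0 | h0
    · rw [← h0, mul_zero, Real.zero_rpow (by norm_num)]
    · have e : Real.log ((L : ℝ) ^ 2) ^ (3 / 2 : ℝ)
          = Real.sqrt (Real.log ((L : ℝ) ^ 2)) * Real.log ((L : ℝ) ^ 2) := by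
        rw [Real.sqrt_eq_rpow]
        nth_rewrite 3 [← Real.rpow_one (Real.log ((L : ℝ) ^ 2))]
        rw [← Real.rpow_add h0]
        norm_num
      rw [e]
      apply mul_le_mul_of_nonneg_right _ h0.le
      exact Real.le_sqrt_of_sq_le hlog
  have h4 := h L h1 t (ht.trans (by
    calc C * ((L : ℝ) ^ 2 * Real.log ((L : ℝ) ^ 2))
        = (L : ℝ) ^ 2 * (C * Real.log ((L : ℝ) ^ 2)) := by ring
      _ ≤ _ := mul_le_mul_of_nonneg_left key (by positivity)))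
  linarith

end Pool.Agent.Results.MP_4cb49c_pr.AllPlusSlow
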