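import Pool.Agent.Work.MP_4cb49c_pr.Uniform

/-!
# Slow mixing of the planar Ising Glauber dynamics from independent uniform spins
-/

namespace Pool.Agent.Results.MP_4cb49c_pr.UniformSlow

open Pool.Agent.Work.MP_4cb49c_pr

/-- In the plane, for every `β ≥ 10` (all of these exceed the critical inverse temperature), the
dynamics in the box of side `L` with plus boundary condition, started from independent uniform
spins, is not mixed at any time up to `L ^ 3 / 50`, once `L` is large. -/
theorem result (β : ℝ) (hβ : 10 ≤ β) :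
    betaC < β ∧ ∃ L₀ : ℕ, ∀ L : ℕ, L₀ ≤ L → ∀ t : ℕ, (t : ℝ) ≤ (1 / 50) * (L : ℝ) ^ 3 →
      1 / 4 < tv (law β (box L) (uniformLaw (box L)) t) (gibbs β (box L)) :=
  ⟨lt_of_le_of_lt betaC_le (by linarith), uniform_lower (by linarith)⟩

end Pool.Agent.Results.MP_4cb49c_pr.UniformSlow
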